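import Mathlib
import Pool.Agent.U180.NG.Stm2

set_option autoImplicit false

/-! Project NG, part 2, package TL (helper571): lower bound of the tails by tilting -/

namespace Pool.Agent.U571.NG

open MeasureTheory ProbabilityTheory Filter Pool.Agent.U180.NG

theorem int_exp {Ω : Type} [MeasurableSpace Ω] (P : Measure Ω) [IsProbabilityMeasure P] (T : Ω → ℝ)
    (hT : Measurable T) (B : ℝ) (hB : ∀ ω, |T ω| ≤ B) (s : ℝ) :
    Integrable (fun ω => Real.exp (s * T ω)) P := by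
  refine Integrable.of_bound (hT.const_mul s).exp.aestronglyMeasurable (Real.exp (|s| * B))
    (ae_of_all _ fun ω => ?_)
  rw [Real.norm_eq_abs, Real.abs_exp]
  apply Real.exp_le_exp.2
  calc s * T ω ≤ |s * T ω| := le_abs_self _
    _ = |s| * |T ω| := abs_mul _ _
    _ ≤ |s| * B := mul_le_mul_of_nonneg_left (hB ω) (abs_nonneg _)

theorem core {Ω : Type} [MeasurableSpace Ω] (P : Measure Ω) [IsProbabilityMeasure P] (T : Ω → ℝ)
    (hT : Measurable T) (B : ℝ) (hB : ∀ ω, |T ω| ≤ B) (V ε x : ℝ) (hε : 0 < ε) (hε4 : ε < 1 / 4)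
    (hx : 4 / ε ≤ x) (hxV : x ≤ ε ^ 2 / 16 * Real.sqrt V)
    (hlow : ∀ t : ℝ, |t| ≤ 1 / 4 → Real.exp ((1 - 2 * |t|) * V * t ^ 2 / 2) ≤
      ∫ ω, Real.exp (t * T ω) ∂P)
    (hup : ∀ t : ℝ, |t| ≤ 1 / 4 → ∫ ω, Real.exp (t * T ω) ∂P ≤
      Real.exp ((1 + 2 * |t|) * V * t ^ 2 / 2)) :
    Real.exp (-((1 + 4 * ε) * x ^ 2 / 2)) ≤ P.real {ω | (1 - ε) * x * Real.sqrt V ≤ T ω} := by
  set q := Real.sqrt V with hq
  have hx0 : 0 < x := lt_of_lt_of_le (by positivity) hx
  have hq0 : 0 < q := by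
    by_contra h
    have h1 : ε ^ 2 / 16 * q ≤ 0 := mul_nonpos_of_nonneg_of_nonpos (by positivity) (not_lt.1 h)
    linarith
  have hV0 : 0 < V := Real.sqrt_pos.1 hq0
  have hVq : V = q ^ 2 := (Real.sq_sqrt hV0.le).symm
  obtain ⟨l, hl⟩ : ∃ l : ℝ, l = x / q := ⟨_, rfl⟩
  have hl0 : 0 < l := by rw [hl]; positivity
  have hlq : l * q = x := by rw [hl]; field_simp
  have hle : l ≤ ε ^ 2 / 16 := by rw [hl, div_le_iff₀ hq0]; exact hxV
  have hl16 : l ≤ 1 / 256 := by nlinarith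
  have hlV : V * l ^ 2 = x ^ 2 := by rw [hVq, ← hlq]; ring
  have hxe : 4 ≤ x * ε := by rwa [div_le_iff₀ hε] at hx
  have hx2 : 16 ≤ x ^ 2 * ε ^ 2 := by nlinarith
  -- the three exponential moments
  set Z := ∫ ω, Real.exp (l * T ω) ∂P with hZ
  have z1 : Real.exp (x ^ 2 * (1 / 2 - l)) ≤ Z := by
    have h := hlow l (by rw [abs_of_pos hl0]; linarith)
    rw [abs_of_pos hl0] at h
    refine le_trans (le_of_eq ?_) h
    congr 1
    rw [show (1 - 2 * l) * V * l ^ 2 / 2 = (1 - 2 * l) * (V * l ^ 2) / 2 by ring, hlV]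
    ring
  have p1 : |(1 + ε) * l| = (1 + ε) * l := abs_of_pos (by positivity)
  have p2 : |(1 - ε) * l| = (1 - ε) * l := abs_of_pos (mul_pos (by linarith) hl0)
  have z2 : ∫ ω, Real.exp ((1 + ε) * l * T ω) ∂P ≤
      Real.exp (x ^ 2 * ((1 + ε) ^ 2 / 2 + (1 + ε) ^ 3 * l)) := by
    have h := hup ((1 + ε) * l) (by rw [p1]; nlinarith)
    rw [p1] at h
    refine h.trans (le_of_eq ?_)
    congr 1
    rw [show (1 + 2 * ((1 + ε) * l)) * V * ((1 + ε) * l) ^ 2 / 2 =
      (1 + 2 * ((1 + ε) * l)) * (1 + ε) ^ 2 * (V * l ^ 2) / 2 by ring, hlV]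
    ring
  have z3 : ∫ ω, Real.exp ((1 - ε) * l * T ω) ∂P ≤
      Real.exp (x ^ 2 * ((1 - ε) ^ 2 / 2 + (1 - ε) ^ 3 * l)) := by
    have h := hup ((1 - ε) * l) (by rw [p2]; nlinarith)
    rw [p2] at h
    refine h.trans (le_of_eq ?_)
    congr 1
    rw [show (1 + 2 * ((1 - ε) * l)) * V * ((1 - ε) * l) ^ 2 / 2 =
      (1 + 2 * ((1 - ε) * l)) * (1 - ε) ^ 2 * (V * l ^ 2) / 2 by ring, hlV]
    ring
  -- the pointwise inequality
  set G : Set Ω := {ω | (1 - ε) * x * q ≤ T ω} with hG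
  have hGm : MeasurableSet G := measurableSet_le measurable_const hT
  have hpt : ∀ ω, Real.exp (l * T ω) ≤ Real.exp ((1 + ε) * x ^ 2) * G.indicator (1 : Ω → ℝ) ω +
      Real.exp (-(ε * (1 + ε) * x ^ 2)) * Real.exp ((1 + ε) * l * T ω) +
      Real.exp (ε * (1 - ε) * x ^ 2) * Real.exp ((1 - ε) * l * T ω) := by
    intro ω
    have i0 : 0 ≤ G.indicator (1 : Ω → ℝ) ω := Set.indicator_nonneg (fun _ _ => zero_le_one) ω
    have e1 : 0 ≤ Real.exp ((1 + ε) * x ^ 2) * G.indicator (1 : Ω → ℝ) ω := by positivity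
    have e2 : 0 ≤ Real.exp (-(ε * (1 + ε) * x ^ 2)) * Real.exp ((1 + ε) * l * T ω) := by positivity
    have e3 : 0 ≤ Real.exp (ε * (1 - ε) * x ^ 2) * Real.exp ((1 - ε) * l * T ω) := by positivity
    by_cases h1 : T ω < (1 - ε) * x * q
    · have h2 : l * T ω ≤ (1 - ε) * x ^ 2 := by
        have := mul_le_mul_of_nonneg_left h1.le hl0.le
        calc l * T ω ≤ l * ((1 - ε) * x * q) := this
          _ = (1 - ε) * x * (l * q) := by ring
          _ = (1 - ε) * x ^ 2 := by rw [hlq]; ring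
      have h3 : Real.exp (l * T ω) ≤
          Real.exp (ε * (1 - ε) * x ^ 2) * Real.exp ((1 - ε) * l * T ω) := by
        rw [← Real.exp_add]
        apply Real.exp_le_exp.2
        nlinarith
      linarith
    · have hω : ω ∈ G := not_lt.1 h1
      by_cases h2 : T ω ≤ (1 + ε) * x * q
      · have h3 : l * T ω ≤ (1 + ε) * x ^ 2 := by
          have := mul_le_mul_of_nonneg_left h2 hl0.le
          calc l * T ω ≤ l * ((1 + ε) * x * q) := this
            _ = (1 + ε) * x * (l * q) := by ring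
            _ = (1 + ε) * x ^ 2 := by rw [hlq]; ring
        have h4 : Real.exp (l * T ω) ≤ Real.exp ((1 + ε) * x ^ 2) * G.indicator (1 : Ω → ℝ) ω := by
          rw [Set.indicator_of_mem hω, Pi.one_apply, mul_one]
          exact Real.exp_le_exp.2 h3
        linarith
      · have h3 : (1 + ε) * x ^ 2 ≤ l * T ω := by
          have := mul_le_mul_of_nonneg_left (not_le.1 h2).le hl0.le
          calc (1 + ε) * x ^ 2 = (1 + ε) * x * (l * q) := by rw [hlq]; ring
            _ = l * ((1 + ε) * x * q) := by ring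
            _ ≤ l * T ω := this
        have h4 : Real.exp (l * T ω) ≤
            Real.exp (-(ε * (1 + ε) * x ^ 2)) * Real.exp ((1 + ε) * l * T ω) := by
          rw [← Real.exp_add]
          apply Real.exp_le_exp.2
          nlinarith
        linarith
  have iG : Integrable (G.indicator (1 : Ω → ℝ)) P :=
    (integrable_const (1 : ℝ)).indicator hGm
  have i1 := int_exp P T hT B hB l
  have i2 := int_exp P T hT B hB ((1 + ε) * l)
  have i3 := int_exp P T hT B hB ((1 - ε) * l)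
  have hint : Z ≤ Real.exp ((1 + ε) * x ^ 2) * P.real G +
      Real.exp (-(ε * (1 + ε) * x ^ 2)) * (∫ ω, Real.exp ((1 + ε) * l * T ω) ∂P) +
      Real.exp (ε * (1 - ε) * x ^ 2) * (∫ ω, Real.exp ((1 - ε) * l * T ω) ∂P) := by
    have h := integral_mono i1 (((iG.const_mul _).add (i2.const_mul _)).add (i3.const_mul _)) hpt
    rw [integral_add' ((iG.const_mul _).add (i2.const_mul _)) (i3.const_mul _),
      integral_add' (iG.const_mul _) (i2.const_mul _), integral_const_mul, integral_const_mul,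
      integral_const_mul, integral_indicator_one hGm] at h
    exact h
  -- the second and the third term are small
  have hZ0 : 0 < Z := lt_of_lt_of_le (Real.exp_pos _) z1
  have h14 : Real.exp (-4) ≤ 1 / 4 := by
    rw [Real.exp_neg, one_div]
    apply inv_anti₀ (by norm_num)
    have := Real.add_one_le_exp (4 : ℝ)
    linarith
  have e13 : (1 + ε) ^ 3 ≤ 2 := by
    have : (1 + ε) ^ 3 ≤ (5 / 4) ^ 3 := pow_le_pow_left₀ (by linarith) (by linarith) 3
    exact this.trans (by norm_num)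
  have e13' : (1 - ε) ^ 3 ≤ 2 := by
    have : (1 - ε) ^ 3 ≤ 1 ^ 3 := pow_le_pow_left₀ (by linarith) (by linarith) 3
    exact this.trans (by norm_num)
  have small : ∀ A c : ℝ, A ≤ (1 - ε ^ 2) / 2 + c * l → c ≤ 2 →
      Real.exp (x ^ 2 * A) ≤ 1 / 4 * Z := by
    intro A c hA hc
    have h1 : x ^ 2 * A ≤ -4 + x ^ 2 * (1 / 2 - l) := by
      have h2 : c * l ≤ 2 * l := mul_le_mul_of_nonneg_right hc hl0.le
      have h3 : A ≤ 1 / 2 - l - 5 / 16 * ε ^ 2 := by nlinarith
      have h4 : x ^ 2 * A ≤ x ^ 2 * (1 / 2 - l - 5 / 16 * ε ^ 2) :=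
        mul_le_mul_of_nonneg_left h3 (by positivity)
      nlinarith
    calc Real.exp (x ^ 2 * A) ≤ Real.exp (-4 + x ^ 2 * (1 / 2 - l)) := Real.exp_le_exp.2 h1
      _ = Real.exp (-4) * Real.exp (x ^ 2 * (1 / 2 - l)) := Real.exp_add _ _
      _ ≤ 1 / 4 * Z := mul_le_mul h14 z1 (Real.exp_pos _).le (by norm_num)
  have t2 : Real.exp (-(ε * (1 + ε) * x ^ 2)) * (∫ ω, Real.exp ((1 + ε) * l * T ω) ∂P) ≤
      1 / 4 * Z := by
    refine (mul_le_mul_of_nonneg_left z2 (Real.exp_pos _).le).trans ?_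
    rw [← Real.exp_add]
    rw [show -(ε * (1 + ε) * x ^ 2) + x ^ 2 * ((1 + ε) ^ 2 / 2 + (1 + ε) ^ 3 * l) =
      x ^ 2 * ((1 - ε ^ 2) / 2 + (1 + ε) ^ 3 * l) by ring]
    exact small _ _ le_rfl e13
  have t3 : Real.exp (ε * (1 - ε) * x ^ 2) * (∫ ω, Real.exp ((1 - ε) * l * T ω) ∂P) ≤
      1 / 4 * Z := by
    refine (mul_le_mul_of_nonneg_left z3 (Real.exp_pos _).le).trans ?_
    rw [← Real.exp_add]
    rw [show ε * (1 - ε) * x ^ 2 + x ^ 2 * ((1 - ε) ^ 2 / 2 + (1 - ε) ^ 3 * l) =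
      x ^ 2 * ((1 - ε ^ 2) / 2 + (1 - ε) ^ 3 * l) by ring]
    exact small _ _ le_rfl e13'
  have main : Z / 2 ≤ Real.exp ((1 + ε) * x ^ 2) * P.real G := by linarith
  -- conclusion
  have f1 : Real.exp (-((1 + 4 * ε) * x ^ 2 / 2)) * Real.exp ((1 + ε) * x ^ 2) ≤ Z / 2 := by
    rw [← Real.exp_add]
    have h2 : (2 : ℝ) ≤ Real.exp (x ^ 2 * (ε - l)) := by
      have h3 : 1 ≤ x ^ 2 * (ε - l) := by
        have h5 : ε / 2 ≤ ε - l := by nlinarith
        have h6 : x ^ 2 * (ε / 2) ≤ x ^ 2 * (ε - l) :=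
          mul_le_mul_of_nonneg_left h5 (by positivity)
        nlinarith
      have := Real.add_one_le_exp (x ^ 2 * (ε - l))
      linarith
    have h7 : Real.exp (-((1 + 4 * ε) * x ^ 2 / 2) + (1 + ε) * x ^ 2) * Real.exp (x ^ 2 * (ε - l)) =
        Real.exp (x ^ 2 * (1 / 2 - l)) := by
      rw [← Real.exp_add]
      congr 1
      ring
    have h8 : Real.exp (-((1 + 4 * ε) * x ^ 2 / 2) + (1 + ε) * x ^ 2) * 2 ≤ Z := by
      refine le_trans ?_ z1
      rw [← h7]
      exact mul_le_mul_of_nonneg_left h2 (Real.exp_pos _).le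
    linarith
  have f2 : Real.exp ((1 + ε) * x ^ 2) * Real.exp (-((1 + 4 * ε) * x ^ 2 / 2)) ≤
      Real.exp ((1 + ε) * x ^ 2) * P.real G := by
    rw [mul_comm]
    exact f1.trans main
  exact le_of_mul_le_mul_left f2 (Real.exp_pos _)

theorem t_TL (h : S_SMGF) : S_TL := by
  intro ε hε hε4
  refine ⟨4 / ε, ε ^ 2 / 16, by positivity, by positivity, ?_⟩
  intro Ω ι _ P hP X S x V hX hind h01 hV hx hxV
  have hm := fun t ht => h Ω ι P hP X S hX hind h01 t ht
  rw [← hV] at hm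
  set T : Ω → ℝ := fun ω => ∑ i ∈ S, (X i ω - ∫ ω, X i ω ∂P) with hT
  have hTm : Measurable T := Finset.measurable_fun_sum _ fun i _ => (hX i).sub_const _
  have hB : ∀ ω, |T ω| ≤ ∑ i ∈ S, (1 + |∫ ω, X i ω ∂P|) := by
    intro ω
    refine (Finset.abs_sum_le_sum_abs _ _).trans (Finset.sum_le_sum fun i _ => ?_)
    refine (abs_sub _ _).trans ?_
    rcases h01 i ω with h1 | h1 <;> rw [h1] <;> simp
  constructor
  · exact core P T hTm _ hB V ε x hε hε4 hx hxV (fun t ht => (hm t ht).1) (fun t ht => (hm t ht).2)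
  · have h2 := core P (fun ω => - T ω) hTm.neg _ (fun ω => by rw [abs_neg]; exact hB ω) V ε x hε hε4
      hx hxV (fun t ht => by
        have h3 := (hm (-t) (by rwa [abs_neg])).1
        rw [abs_neg, neg_sq] at h3
        refine h3.trans (le_of_eq ?_)
        congr 1
        funext ω
        congr 1
        change -t * T ω = t * -T ω
        ring) (fun t ht => by
        have h3 := (hm (-t) (by rwa [abs_neg])).2
        rw [abs_neg, neg_sq] at h3
        refine le_trans (le_of_eq ?_) h3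
        congr 1
        funext ω
        congr 1
        change t * -T ω = -t * T ω
        ring)
    have h4 : {ω | (1 - ε) * x * Real.sqrt V ≤ - T ω} = {ω | T ω ≤ -((1 - ε) * x * Real.sqrt V)} := by
      ext ω
      simp only [Set.mem_setOf_eq]
      constructor <;> intro h5 <;> linarith
    rw [h4] at h2
    exact h2

end Pool.Agent.U571.NG
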